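import Pool.Agent.Work.MP_252c1e_lc.CInterface

/-!
# C3: stability of open embeddings in a compact space all of whose punctures are Euclidean
-/

open Set Topology TopologicalSpace

namespace Pool.Agent.Work.MP_252c1e_lc

theorem ekX (hEK : EKEuclid) : EKX := by
  classical
  intro n X _ _ hX U P N f hU hUne hP hN hPN hf hfN
  obtain ⟨q, hq⟩ : ∃ q, q ∉ U := by
    by_contra h
    push Not at h
    exact hUne (eq_univ_of_forall h)
  obtain ⟨e⟩ := hX q
  have : Nonempty X := ⟨q⟩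
  set E : X → (Fin n → ℝ) := fun x => if h : x ∈ ({q}ᶜ : Set X) then e ⟨x, h⟩ else 0 with hEdef
  set R : (Fin n → ℝ) → X := fun y => (e.symm y).1 with hRdef
  have hqo : IsOpen ({q}ᶜ : Set X) := isOpen_compl_singleton
  have hEval : ∀ x (h : x ∈ ({q}ᶜ : Set X)), E x = e ⟨x, h⟩ := fun x h => by
    simp only [hEdef, dif_pos h]
  have hRmem : ∀ y, R y ∈ ({q}ᶜ : Set X) := fun y => (e.symm y).2
  have hER : ∀ y, E (R y) = y := by
    intro y
    rw [hEval _ (hRmem y)]
    exact e.apply_symm_apply y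
  have hRE : ∀ x ∈ ({q}ᶜ : Set X), R (E x) = x := by
    intro x hx
    rw [hEval x hx]
    change (e.symm (e ⟨x, hx⟩)).1 = x
    rw [e.symm_apply_apply]
  have hRoe : OE R univ := by
    apply OE.of_isOpenEmbedding
    exact (hqo.isOpenEmbedding_subtypeVal).comp e.symm.isOpenEmbedding
  have hEoe : OE E ({q}ᶜ : Set X) := by
    have h1 := OE.invFunOn hRoe
    have himg : R '' univ = ({q}ᶜ : Set X) := by
      apply Subset.antisymm
      · rintro _ ⟨y, -, rfl⟩
        exact hRmem y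
      · intro x hx
        exact ⟨E x, mem_univ _, hRE x hx⟩
    rw [himg] at h1
    apply h1.congr
    intro x hx
    have h2 : Function.invFunOn R univ (R (E x)) = E x :=
      hRoe.inj.leftInvOn_invFunOn (mem_univ _)
    rw [hRE x hx] at h2
    exact h2
  obtain ⟨W, hfW, hNW⟩ := hf
  have hUq : U ⊆ ({q}ᶜ : Set X) := fun x hx h => by
    rw [mem_singleton_iff] at h
    rw [h] at hx
    exact hq hx
  have hNint : interior N ⊆ N := interior_subset
  have hfint : OE f (interior N) := hfW.mono isOpen_interior (hNint.trans hNW)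
  have hEf : OE (E ∘ f) (interior N) := hEoe.comp hfint fun x hx =>
    hUq (hfN ⟨x, hNint hx, rfl⟩)
  have hfq : ∀ x ∈ N, f x ∈ ({q}ᶜ : Set X) := fun x hx => hUq (hfN ⟨x, hx, rfl⟩)
  have hK0 : IsCompact (f '' N) := hN.image_of_continuousOn (hfW.cont.mono hNW)
  have hK0q : f '' N ⊆ ({q}ᶜ : Set X) := hfN.trans hUq
  obtain ⟨δ', hδ', hEK'⟩ := hEK n ((E ∘ f) '' P) ((E ∘ f) '' interior N)
    (hP.image_of_continuousOn (hEf.cont.mono hPN)) hEf.isOpen_image (image_mono hPN)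
  obtain ⟨δ₁, hδ₁, hth⟩ := hK0.exists_thickening_subset_open hqo hK0q
  have huc := hK0.uniformContinuousAt_of_continuousAt E (r := {p | dist p.1 p.2 < δ'})
    (fun a ha => hEoe.cont.continuousAt (hqo.mem_nhds (hK0q ha)))
    (Metric.dist_mem_uniformity hδ')
  obtain ⟨δ₂, hδ₂, huc'⟩ := Metric.mem_uniformity_dist.1 huc
  refine ⟨min δ₁ δ₂, lt_min hδ₁ hδ₂, ?_⟩
  rintro g ⟨W', hgW, hNW'⟩ hclose
  have hgint : OE g (interior N) := hgW.mono isOpen_interior (hNint.trans hNW')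
  have hgq : ∀ x ∈ N, g x ∈ ({q}ᶜ : Set X) := by
    intro x hx
    apply hth
    rw [Metric.mem_thickening_iff]
    exact ⟨f x, ⟨x, hx, rfl⟩, (hclose x hx).trans_le (min_le_left _ _)⟩
  have hEdist : ∀ x ∈ N, dist (E (g x)) (E (f x)) < δ' := by
    intro x hx
    have h1 : dist (f x) (g x) < δ₂ := by
      rw [dist_comm]
      exact (hclose x hx).trans_le (min_le_right _ _)
    have h2 := huc' h1
    simp only [Set.mem_ofPred_eq] at h2
    rw [dist_comm]
    exact h2 ⟨x, hx, rfl⟩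
  set fi := Function.invFunOn f (interior N) with hfi
  have hfinv : ∀ x ∈ interior N, fi (f x) = x := fun x hx =>
    hfint.inj.leftInvOn_invFunOn hx
  have hval : ∀ x ∈ interior N, (E ∘ g ∘ fi ∘ R) (E (f x)) = E (g x) := by
    intro x hx
    simp only [Function.comp]
    rw [hRE _ (hfq x (hNint hx)), hfinv x hx]
  have hhoe : OE (E ∘ g ∘ fi ∘ R) ((E ∘ f) '' interior N) := by
    have h1 : OE R ((E ∘ f) '' interior N) := hRoe.mono hEf.isOpen_image (subset_univ _)
    have h2 : OE (fi ∘ R) ((E ∘ f) '' interior N) := by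
      refine (OE.invFunOn hfint).comp h1 ?_
      rintro _ ⟨x, hx, rfl⟩
      simp only [Function.comp]
      rw [hRE _ (hfq x (hNint hx))]
      exact ⟨x, hx, rfl⟩
    have h3 : OE (g ∘ fi ∘ R) ((E ∘ f) '' interior N) := by
      refine hgint.comp h2 ?_
      rintro _ ⟨x, hx, rfl⟩
      simp only [Function.comp]
      rw [hRE _ (hfq x (hNint hx)), hfinv x hx]
      exact hx
    refine hEoe.comp h3 ?_
    rintro _ ⟨x, hx, rfl⟩
    simp only [Function.comp]
    rw [hRE _ (hfq x (hNint hx)), hfinv x hx]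
    exact hgq x (hNint hx)
  obtain ⟨φ, ⟨K, hK, hKO, hφK⟩, V, hV, hCV, -, hφV⟩ := hEK' (E ∘ g ∘ fi ∘ R) hhoe (by
    rintro _ ⟨x, hx, rfl⟩
    have h1 := hval x hx
    simp only [Function.comp] at h1 ⊢
    rw [h1]
    exact hEdist x (hNint hx))
  obtain ⟨ψ, hψ1, hψ2⟩ := exists_conj hRoe hK (subset_univ _) hφK
  refine ⟨ψ, ⟨R '' K, hK.image (continuousOn_univ.1 hRoe.cont), ?_, hψ1⟩, interior N ∩ (E ∘ f) ⁻¹' V,
    hEf.cont.isOpen_inter_preimage isOpen_interior hV, ?_, ?_⟩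
  · rintro _ ⟨y, hy, rfl⟩
    obtain ⟨x, hx, rfl⟩ := hKO hy
    simp only [Function.comp]
    rw [hRE _ (hfq x (hNint hx))]
    exact hfN ⟨x, hNint hx, rfl⟩
  · intro x hx
    exact ⟨hPN hx, hCV ⟨x, hx, rfl⟩⟩
  · rintro x ⟨hx, hxV⟩
    have h1 := hψ2 (E (f x)) (mem_univ _)
    have h2 : φ (E (f x)) = (E ∘ g ∘ fi ∘ R) (E (f x)) := hφV (E (f x)) hxV
    rw [hRE _ (hfq x (hNint hx)), h2, hval x hx, hRE _ (hgq x (hNint hx))] at h1
    exact h1

end Pool.Agent.Work.MP_252c1e_lc
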