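import Pool.Agent.Work.MP_252c1e_lc.CInterface

/-!
# C4: countable families of pieces and of open embeddings
-/

open Set Topology TopologicalSpace

namespace Pool.Agent.Work.MP_252c1e_lc

theorem exists_pieces (X : Type) [MetricSpace X] [CompactSpace X] : ∃ Pc : ℕ → Set X,
    (∀ i, IsCompact (Pc i)) ∧ Pc 0 = ∅ ∧
    ∀ C U : Set X, IsCompact C → IsOpen U → C ⊆ U → ∃ i, C ⊆ interior (Pc i) ∧ Pc i ⊆ U := by
  obtain ⟨B, hBc, -, hB⟩ := exists_countable_basis X
  have hne : (insert ∅ B).Nonempty := ⟨∅, mem_insert _ _⟩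
  obtain ⟨b, hb⟩ := (hBc.insert ∅).exists_eq_range hne
  have hbo : ∀ k, IsOpen (b k) := by
    intro k
    have h1 : b k ∈ insert ∅ B := by rw [hb]; exact mem_range_self k
    rcases h1 with h1 | h1
    · rw [h1]; exact isOpen_empty
    · exact hB.isOpen h1
  set P' : Finset ℕ → Set X := fun s => ⋃ k ∈ s, closure (b k) with hP'
  obtain ⟨u, hu⟩ := exists_surjective_nat (Finset ℕ)
  refine ⟨fun i => if i = 0 then ∅ else P' (u (i - 1)), ?_, ?_, ?_⟩
  · intro i
    dsimp only
    split_ifs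
    · exact isCompact_empty
    · exact Finset.isCompact_biUnion _ fun k _ => isClosed_closure.isCompact
  · simp
  · intro C U hC hU hCU
    obtain ⟨s, hs1, hs2⟩ : ∃ s : Finset ℕ, C ⊆ (⋃ k ∈ s, b k) ∧ ∀ k ∈ s, closure (b k) ⊆ U := by
      refine hC.induction_on (p := fun S => ∃ s : Finset ℕ, S ⊆ (⋃ k ∈ s, b k) ∧
        ∀ k ∈ s, closure (b k) ⊆ U) ?_ ?_ ?_ ?_
      · exact ⟨∅, empty_subset _, by simp⟩
      · rintro S T hST ⟨s, h1, h2⟩
        exact ⟨s, hST.trans h1, h2⟩
      · rintro S T ⟨s, h1, h2⟩ ⟨t, h3, h4⟩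
        refine ⟨s ∪ t, ?_, ?_⟩
        · rw [Finset.set_biUnion_union]
          exact union_subset_union h1 h3
        · intro k hk
          rcases Finset.mem_union.1 hk with h | h
          · exact h2 k h
          · exact h4 k h
      · intro x hx
        obtain ⟨F, hF, hFc, hFU⟩ := exists_mem_nhds_isClosed_subset (hU.mem_nhds (hCU hx))
        obtain ⟨v, hv, hxv, hvF⟩ := hB.mem_nhds_iff.1 hF
        have h1 : v ∈ range b := by rw [← hb]; exact mem_insert_of_mem _ hv
        obtain ⟨k, rfl⟩ := h1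
        refine ⟨b k, mem_nhdsWithin_of_mem_nhds ((hbo k).mem_nhds hxv), {k}, by simp, ?_⟩
        intro j hj
        rw [Finset.mem_singleton] at hj
        rw [hj]
        exact (closure_minimal hvF hFc).trans hFU
    obtain ⟨i, rfl⟩ := hu s
    refine ⟨i + 1, ?_, ?_⟩
    · simp only [Nat.add_eq_zero_iff, one_ne_zero, and_false, if_false, Nat.add_sub_cancel]
      refine hs1.trans (interior_maximal ?_ (isOpen_biUnion fun k _ => hbo k))
      exact iUnion₂_mono fun k _ => subset_closure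
    · simp only [Nat.add_eq_zero_iff, one_ne_zero, and_false, if_false, Nat.add_sub_cancel]
      exact iUnion₂_subset hs2

theorem exists_em (X : Type) [MetricSpace X] [CompactSpace X] (P : Set X) (hP : IsCompact P) :
    ∃ em : ℕ → X → X, (∀ j, OEn (em j) P) ∧ em 0 = _root_.id ∧
      ∀ g : X → X, OEn g P → ∀ δ > 0, ∃ j, ∀ x ∈ P, dist (em j x) (g x) < δ := by
  have hcs : CompactSpace P := isCompact_iff_compactSpace.1 hP
  have hres : ∀ g : X → X, OEn g P → Continuous (fun x : P => g x) := by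
    rintro g ⟨W, hg, hPW⟩
    exact hg.cont.comp_continuous continuous_subtype_val fun x => hPW x.2
  set S : Set C(P, X) := {F | ∃ g, OEn g P ∧ ∀ x : P, F x = g x} with hS
  have hid : OEn (_root_.id : X → X) P := ⟨univ, OE.idX, subset_univ _⟩
  obtain ⟨t, htS, htc, hdense⟩ :=
    (IsSeparable.of_separableSpace S).exists_countable_dense_subset
  have hSne : S.Nonempty := ⟨⟨_, hres _ hid⟩, _root_.id, hid, fun _ => rfl⟩
  have htne : t.Nonempty := by
    by_contra h
    rw [not_nonempty_iff_eq_empty] at h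
    rw [h, closure_empty] at hdense
    exact hSne.not_subset_empty hdense
  obtain ⟨F, hF⟩ := htc.exists_eq_range htne
  have hch : ∀ j, ∃ g, OEn g P ∧ ∀ x : P, F j x = g x := fun j =>
    htS (by rw [hF]; exact mem_range_self j)
  choose G hG1 hG2 using hch
  refine ⟨fun j => Nat.casesOn j _root_.id G, ?_, rfl, ?_⟩
  · intro j
    cases j with
    | zero => exact hid
    | succ j => exact hG1 j
  · intro g hg δ hδ
    have h1 : (⟨fun x : P => g x, hres g hg⟩ : C(P, X)) ∈ S := ⟨g, hg, fun _ => rfl⟩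
    obtain ⟨F', hF't, hF'⟩ := Metric.mem_closure_iff.1 (hdense h1) δ hδ
    rw [hF] at hF't
    obtain ⟨j, rfl⟩ := hF't
    refine ⟨j + 1, fun x hx => ?_⟩
    have h2 := (ContinuousMap.dist_lt_iff hδ).1 hF' ⟨x, hx⟩
    rw [dist_comm] at h2
    have h3 := hG2 j ⟨x, hx⟩
    rw [h3] at h2
    exact h2

theorem pdThm : PDThm := by
  intro X _ _
  obtain ⟨Pc, h1, h2, h3⟩ := exists_pieces X
  choose em h4 h5 h6 using fun i => exists_em X (Pc i) (h1 i)
  exact ⟨⟨Pc, em, h1, h2, h3, h4, h5, h6⟩⟩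

end Pool.Agent.Work.MP_252c1e_lc
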